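import Pool.Agent.helper36.NF.Spec

/-! Row nf:DCH (MP_37e5fa_nt): every function of a level is eventually constant, or at least `m - C`, or at most `C - m`. -/

set_option autoImplicit false

open Polynomial Filter

namespace Pool.Agent.NoFormula

theorem DCH_congr {f g : ℕ → ℤ} (h : ∀ᶠ m : ℕ in atTop, f m = g m) (hg : Dich g) : Dich f := by
  rcases hg with ⟨c, hc⟩ | ⟨C, hC⟩ | ⟨C, hC⟩
  · left
    refine ⟨c, ?_⟩
    filter_upwards [h, hc] with m h1 h2
    rw [h1, h2]
  · right; left
    refine ⟨C, ?_⟩
    filter_upwards [h, hC] with m h1 h2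
    rw [h1]
    exact h2
  · right; right
    refine ⟨C, ?_⟩
    filter_upwards [h, hC] with m h1 h2
    rw [h1]
    exact h2

/-- polynomials -/
theorem DCH_poly (p : ℤ[X]) : Dich (fun m => p.eval (m : ℤ)) := by
  induction p using Polynomial.recOnHorner with
  | M0 =>
    left
    exact ⟨0, Eventually.of_forall fun m => by simp⟩
  | MC p a _ _ ih =>
    rcases ih with ⟨c, hc⟩ | ⟨C', hC⟩ | ⟨C', hC⟩
    · left
      refine ⟨c + a, ?_⟩
      filter_upwards [hc] with m h1
      simp only [eval_add, eval_C]
      rw [h1]
    · right; left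
      refine ⟨C' - a, ?_⟩
      filter_upwards [hC] with m h1
      simp only [eval_add, eval_C]
      linarith
    · right; right
      refine ⟨C' + a, ?_⟩
      filter_upwards [hC] with m h1
      simp only [eval_add, eval_C]
      linarith
  | MX p _ ih =>
    rcases ih with ⟨c, hc⟩ | ⟨C', hC⟩ | ⟨C', hC⟩
    · rcases lt_trichotomy c 0 with h | h | h
      · right; right
        refine ⟨0, ?_⟩
        filter_upwards [hc] with m h1
        simp only [eval_mul, eval_X]
        rw [h1]
        have : (0 : ℤ) ≤ m := Int.natCast_nonneg m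
        nlinarith
      · left
        refine ⟨0, ?_⟩
        filter_upwards [hc] with m h1
        simp only [eval_mul, eval_X]
        rw [h1, h, zero_mul]
      · right; left
        refine ⟨0, ?_⟩
        filter_upwards [hc] with m h1
        simp only [eval_mul, eval_X]
        rw [h1]
        have : (0 : ℤ) ≤ m := Int.natCast_nonneg m
        nlinarith
    · right; left
      refine ⟨0, ?_⟩
      filter_upwards [hC, eventually_ge_atTop (C' + 1).toNat] with m h1 h2
      simp only [eval_mul, eval_X]
      have h3 : C' + 1 ≤ m := Int.toNat_le.mp h2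
      have h4 : (0 : ℤ) ≤ m := Int.natCast_nonneg m
      have h5 : 1 ≤ p.eval (m : ℤ) := by linarith
      nlinarith
    · right; right
      refine ⟨0, ?_⟩
      filter_upwards [hC, eventually_ge_atTop (C' + 1).toNat] with m h1 h2
      simp only [eval_mul, eval_X]
      have h3 : C' + 1 ≤ m := Int.toNat_le.mp h2
      have h4 : (0 : ℤ) ≤ m := Int.natCast_nonneg m
      have h5 : p.eval (m : ℤ) ≤ -1 := by linarith
      nlinarith

/-- a nonzero polynomial is not eventually zero -/
theorem DCH_ne (p : ℤ[X]) (hp : p ≠ 0) : ¬ ∀ᶠ m : ℕ in atTop, p.eval (m : ℤ) = 0 := by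
  intro h
  apply hp
  obtain ⟨N, hN⟩ := eventually_atTop.mp h
  apply Polynomial.eq_zero_of_infinite_isRoot
  have h1 : Set.Infinite ((fun n : ℕ => ((n + N : ℕ) : ℤ)) '' Set.univ) := by
    apply Set.Infinite.image
    · intro x _ y _ hxy
      simp only at hxy
      have := Int.natCast_inj.mp hxy
      omega
    · exact Set.infinite_univ
  refine h1.mono ?_
  rintro _ ⟨n, -, rfl⟩
  exact hN (n + N) (Nat.le_add_left N n)

/-- a nonzero polynomial has eventually a constant sign -/
theorem DCH_sign (p : ℤ[X]) (hp : p ≠ 0) :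
    (∀ᶠ m : ℕ in atTop, 1 ≤ p.eval (m : ℤ)) ∨ ∀ᶠ m : ℕ in atTop, p.eval (m : ℤ) ≤ -1 := by
  rcases DCH_poly p with ⟨c, hc⟩ | ⟨C', hC⟩ | ⟨C', hC⟩
  · rcases lt_trichotomy c 0 with h | h | h
    · right
      filter_upwards [hc] with m h1
      rw [h1]
      linarith
    · exfalso
      apply DCH_ne p hp
      filter_upwards [hc] with m h1
      rw [h1, h]
    · left
      filter_upwards [hc] with m h1
      rw [h1]
      linarith
  · left
    filter_upwards [hC, eventually_ge_atTop (C' + 1).toNat] with m h1 h2
    have h3 : C' + 1 ≤ m := Int.toNat_le.mp h2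
    linarith
  · right
    filter_upwards [hC, eventually_ge_atTop (C' + 1).toNat] with m h1 h2
    have h3 : C' + 1 ≤ m := Int.toNat_le.mp h2
    linarith

theorem DCH_two (e : ℕ) : 2 * e ≤ 2 ^ e := by
  induction e with
  | zero => norm_num
  | succ e ih =>
    rw [pow_succ]
    have : 1 ≤ 2 ^ e := Nat.one_le_two_pow
    rcases Nat.eq_zero_or_pos e with h | h
    · subst h
      norm_num
    · have h2 : 2 ≤ 2 ^ e := by
        calc 2 = 2 ^ 1 := by norm_num
          _ ≤ 2 ^ e := Nat.pow_le_pow_right (by norm_num) h
      omega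

theorem DCH (hLVA : LVA_stmt) (hNRM : NRM_stmt) (hDOM : DOM_stmt) : DCH_stmt := by
  intro k
  induction k with
  | zero =>
    rintro f ⟨p, hp⟩
    exact DCH_congr hp (DCH_poly p)
  | succ k ih =>
    intro f hf
    obtain ⟨L, hL, hfL⟩ := hNRM k ih f hf
    refine DCH_congr hfL ?_
    cases L with
    | nil =>
      left
      exact ⟨0, Eventually.of_forall fun m => by simp [sm]⟩
    | cons x L' =>
      have hdom := hDOM k x L' hL
      obtain ⟨hne, hlev, hpos⟩ := hL.1 x List.mem_cons_self
      rcases ih x.2 hlev with ⟨c, hc⟩ | ⟨C', hC⟩ | ⟨C', hC⟩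
      · -- constant exponent
        have hnil : L' = [] := by
          by_contra hcon
          obtain ⟨y, hy⟩ := List.exists_mem_of_ne_nil L' hcon
          obtain ⟨-, -, hypos⟩ := hL.1 y (List.mem_cons_of_mem _ hy)
          obtain ⟨C1, hC1⟩ := (List.pairwise_cons.mp hL.2).1 y hy
          have hev : ∀ᶠ m : ℕ in atTop, False := by
            filter_upwards [hc, hypos, hC1, eventually_ge_atTop (c + C1 + 1).toNat] with m h1 h2 h3 h4
            have h5 : c + C1 + 1 ≤ m := Int.toNat_le.mp h4
            linarith
          exact (hev.exists.elim fun _ h => h)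
        subst hnil
        refine DCH_congr (g := fun m => (x.1 * C (2 ^ c.toNat)).eval (m : ℤ)) ?_ (DCH_poly _)
        filter_upwards [hc] with m h1
        simp [sm, tm, h1]
      · -- the exponent tends to infinity
        rcases DCH_sign x.1 hne with hs | hs
        · right; left
          refine ⟨C', ?_⟩
          filter_upwards [hdom, hC, hs] with m h1 h2 h3
          have h4 : (2 : ℤ) * (x.2 m).toNat ≤ 2 ^ (x.2 m).toNat := by exact_mod_cast DCH_two _
          have h5 : x.2 m ≤ (x.2 m).toNat := Int.self_le_toNat _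
          have h6 : (0 : ℤ) < 2 ^ (x.2 m).toNat := by positivity
          have h7 : (2 : ℤ) ^ (x.2 m).toNat ≤ tm x m := by
            unfold tm
            nlinarith
          have h8 := neg_abs_le (sm (x :: L') m - tm x m)
          linarith
        · right; right
          refine ⟨C', ?_⟩
          filter_upwards [hdom, hC, hs] with m h1 h2 h3
          have h4 : (2 : ℤ) * (x.2 m).toNat ≤ 2 ^ (x.2 m).toNat := by exact_mod_cast DCH_two _
          have h5 : x.2 m ≤ (x.2 m).toNat := Int.self_le_toNat _
          have h6 : (0 : ℤ) < 2 ^ (x.2 m).toNat := by positivity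
          have h7 : tm x m ≤ -(2 : ℤ) ^ (x.2 m).toNat := by
            unfold tm
            nlinarith
          have h8 := le_abs_self (sm (x :: L') m - tm x m)
          linarith
      · exfalso
        have hev : ∀ᶠ m : ℕ in atTop, False := by
          filter_upwards [hC, hpos, eventually_ge_atTop (C' + 1).toNat] with m h1 h2 h3
          have h4 : C' + 1 ≤ m := Int.toNat_le.mp h3
          linarith
        exact (hev.exists.elim fun _ h => h)

end Pool.Agent.NoFormula
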